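import Pool.Agent.H.MP_b653e9_lc.B
import Pool.Agent.Lib.helper13.KAPI

set_option autoImplicit false

namespace Pool.Agent.Results.MP_b653e9_lc.Full

open Pool.Agent.Lib.helper21 Pool.Agent.H.MP_fa2eca_lc Pool.Agent.H.MP_b653e9_lc

/-- the lower bound `K (X | n) > n - h n` forces computing a random set -/
def Forces (V : List Bool →. List Bool) (h : ℕ → ℕ) : Prop := ∀ X : ℕ → Bool,
  (∀ n, n < Pool.Agent.H.MP_7c40ec_lc.cx V (pre X n) + h n) →
    ∃ R : ℕ → Bool, TuringReducible (Fn.orc R) (Fn.orc X) ∧ ML.Rand R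

def Unbounded (h : ℕ → ℕ) : Prop := ∀ c, ∃ n, c ≤ h n

theorem result (V : List Bool →. List Bool) (hV : Pool.Agent.Lib.KAPI.OptPF V) :
    (∀ h, Computable h → Monotone h → Unbounded h → ¬ Forces V h) ∧
    (∃ h, Monotone h ∧ Unbounded h ∧ Forces V h) ∧
    ∃ h, Computable h ∧ ¬ Monotone h ∧ Unbounded h ∧ Forces V h := by
  obtain ⟨h1, h2, h3⟩ := hV.pref
  refine ⟨fun h a b c d => ?_, (part2 h1 h2 h3).imp fun h k => ⟨k.1, k.2.1, fun X a =>
    (k.2.2 X a).imp fun R b => ⟨b.1.orc, b.2⟩⟩, fun n => n % 2 * n, (Primrec.nat_mul.comp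
      (Primrec.nat_mod.comp .id (.const 2)) .id).to_comp, fun k => by simpa using k one_le_two,
    fun c => ⟨2 * c + 1, by simp; omega⟩, fun X a => ⟨X, .refl _, schnorr h3 (c := 0) fun n e => by
      simpa [e] using (a n).le⟩⟩
  obtain ⟨X, k1, k2⟩ := part1 h1 a b c
  exact (d X k1).elim fun R k => k2 R (PR.CI.of_orc k.1) k.2

end Pool.Agent.Results.MP_b653e9_lc.Full
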